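import Pool.Agent.H15.TG.Targets

/-!
# Board `tga_modules` (MP_51eb24_ag), row DV0: derivatives, with denominator
-/

set_option autoImplicit false

namespace Pool.Agent.H89.TG

open MvPolynomial Pool.Agent.H2.ST Pool.Agent.H15.TG

variable {k : Type} [Field k] {m d : ℕ}

/-- `p` is the derivative of `s` with respect to `H` -/
def DD (W : (Fin d → ℤ) → Submodule k (Pol k m)) (K : Subalgebra k (Pol k m)) (f s : Pol k m)
    (A0 : Subalgebra k (Pol k m)) : Prop :=
  ∃ p : Fin d → Pol k m, (∀ j, p j ∈ A0) ∧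
    ∀ (χ : Fin d → ℤ) (g : Pol k m), g ∈ Cf K f → g ∈ W χ →
      br g s = -(g * ∑ j, ((χ j : ℤ) : k) • p j)

theorem pf_DV0 (hTR0 : T_TR0) (hIND : T_IND) : T_DV0 := by
  intro k _ _ _ m d W K H f hFd x hxC hx0
  classical
  -- the invariants
  let A0 : Subalgebra k (Pol k m) := Cf K f ⊓ zeroPart hFd.toGr
  have hA0 : ∀ z, z ∈ A0 ↔ z ∈ Cf K f ∧ z ∈ W 0 := fun z => Iff.rfl
  have hf0 : f ∈ A0 := (hA0 f).2 ⟨mem_Cf.2 ⟨hFd.fK, br_self f⟩, hFd.f0⟩
  have hH0 : ∀ j, H j ∈ A0 := by
    intro j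
    refine (hA0 _).2 ⟨mem_Cf.2 ⟨hFd.hK j, ?_⟩, hFd.h0 j⟩
    rw [br_anti, hFd.eu j 0 f hFd.fK hFd.f0]
    simp
  have hxA : x ∈ A0 := (hA0 x).2 ⟨hxC, hx0⟩
  let y : Unit ⊕ Fin d → Pol k m := Sum.elim (fun _ : Unit => f) H
  have hy : AlgebraicIndependent k y := hIND k m d W K H f hFd
  have hyA : ∀ i, y i ∈ A0 := by
    rintro (i | j)
    · exact hf0
    · exact hH0 j
  let S : Subalgebra k (Pol k m) := Algebra.adjoin k (Set.range y)
  have hSA : S ≤ A0 := Algebra.adjoin_le (by
    rintro _ ⟨i, rfl⟩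
    exact hyA i)
  -- the derivatives of the elements of `S`
  have hD : ∀ s ∈ S, DD W K f s A0 := by
    intro s hs
    induction hs using Algebra.adjoin_induction with
    | mem z hz =>
      obtain ⟨i | j, rfl⟩ := hz
      · refine ⟨fun _ => 0, fun _ => A0.zero_mem, fun χ g hg hgW => ?_⟩
        show br g f = _
        rw [br_anti, (mem_Cf.1 hg).2]
        simp
      · refine ⟨fun i => if i = j then 1 else 0, fun i => ?_, fun χ g hg hgW => ?_⟩
        · show (if i = j then (1 : Pol k m) else 0) ∈ A0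
          by_cases h : i = j
          · rw [if_pos h]; exact A0.one_mem
          · rw [if_neg h]; exact A0.zero_mem
        · show br g (H j) = _
          rw [br_anti, hFd.eu j χ g (mem_Cf.1 hg).1 hgW]
          simp
    | algebraMap c =>
      refine ⟨fun _ => 0, fun _ => A0.zero_mem, fun χ g hg hgW => ?_⟩
      rw [MvPolynomial.algebraMap_eq, br_C]
      simp
    | add a b _ _ ha hb =>
      obtain ⟨p, hp, hp'⟩ := ha
      obtain ⟨q, hq, hq'⟩ := hb
      refine ⟨fun j => p j + q j, fun j => A0.add_mem (hp j) (hq j), fun χ g hg hgW => ?_⟩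
      rw [br_add, hp' χ g hg hgW, hq' χ g hg hgW]
      simp only [smul_add, Finset.sum_add_distrib]
      ring
    | mul a b ha' hb' ha hb =>
      obtain ⟨p, hp, hp'⟩ := ha
      obtain ⟨q, hq, hq'⟩ := hb
      refine ⟨fun j => a * q j + b * p j, fun j => A0.add_mem (A0.mul_mem (hSA ha') (hq j))
        (A0.mul_mem (hSA hb') (hp j)), fun χ g hg hgW => ?_⟩
      rw [br_mul, hp' χ g hg hgW, hq' χ g hg hgW]
      simp only [smul_add, Finset.sum_add_distrib, ← mul_smul_comm, ← Finset.mul_sum]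
      ring
  -- the derivatives of the polynomials in `x`
  have hQ : ∀ Q : Polynomial S, Polynomial.aeval x Q ∈ A0 ∧ ∃ p : Fin d → Pol k m,
      (∀ j, p j ∈ A0) ∧ ∀ (χ : Fin d → ℤ) (g : Pol k m), g ∈ Cf K f → g ∈ W χ →
        br g (Polynomial.aeval x Q) =
          Polynomial.aeval x (Polynomial.derivative Q) * br g x -
            g * ∑ j, ((χ j : ℤ) : k) • p j := by
    intro Q
    induction Q using Polynomial.induction_on' with
    | add P Q hP hQ =>
      obtain ⟨hP1, p, hp, hp'⟩ := hP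
      obtain ⟨hQ1, q, hq, hq'⟩ := hQ
      refine ⟨by rw [map_add]; exact A0.add_mem hP1 hQ1, fun j => p j + q j,
        fun j => A0.add_mem (hp j) (hq j), fun χ g hg hgW => ?_⟩
      rw [map_add, br_add, hp' χ g hg hgW, hq' χ g hg hgW, Polynomial.derivative_add, map_add]
      simp only [smul_add, Finset.sum_add_distrib]
      ring
    | monomial n s =>
      obtain ⟨p, hp, hp'⟩ := hD s s.2
      have h1 : Polynomial.aeval x (Polynomial.monomial n s) = (s : Pol k m) * x ^ n := by
        rw [Polynomial.aeval_monomial]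
        rfl
      refine ⟨?_, fun j => x ^ n * p j, fun j => A0.mul_mem (A0.pow_mem hxA n) (hp j),
        fun χ g hg hgW => ?_⟩
      · rw [h1]
        exact A0.mul_mem (hSA s.2) (A0.pow_mem hxA n)
      · rw [h1, br_mul, br_pow, hp' χ g hg hgW, Polynomial.derivative_monomial,
          Polynomial.aeval_monomial]
        have h2 : (algebraMap S (Pol k m)) (s * (n : S)) = (s : Pol k m) * (n : Pol k m) := by
          rw [map_mul, map_natCast]
          rfl
        rw [h2]
        simp only [← mul_smul_comm, ← Finset.mul_sum]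
        ring
  -- `x` is algebraic over `S`
  have halg : IsAlgebraic S x := by
    by_contra hcon
    have h1 : AlgebraicIndependent k (fun o : Option (Unit ⊕ Fin d) => o.elim x y) :=
      (hy.option_iff_transcendental x).2 hcon
    have h2 := hTR0 k m d W K H f hFd (Option (Unit ⊕ Fin d)) _ (by
      rintro (_ | i)
      · exact (hA0 _).1 hxA
      · exact (hA0 _).1 (hyA i)) h1
    simp at h2
  obtain ⟨Q0, hQ0, hQ0x⟩ := halg
  have hex : ∃ n : ℕ, ∃ Q : Polynomial S, Q ≠ 0 ∧ Polynomial.aeval x Q = 0 ∧ Q.natDegree = n :=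
    ⟨_, Q0, hQ0, hQ0x, rfl⟩
  obtain ⟨Q, hQne, hQx, hQdeg⟩ := Nat.find_spec hex
  have hmin : ∀ P : Polynomial S, P ≠ 0 → P.natDegree < Q.natDegree →
      Polynomial.aeval x P ≠ 0 := by
    intro P hP hlt h0
    rw [hQdeg] at hlt
    exact Nat.find_min hex hlt ⟨P, hP, h0, rfl⟩
  have hpos : Q.natDegree ≠ 0 := by
    intro h0
    rw [Polynomial.natDegree_eq_zero] at h0
    obtain ⟨b, rfl⟩ := h0
    rw [Polynomial.aeval_C] at hQx
    apply hQne
    have h1 : b = 0 := Subtype.ext hQx
    rw [h1, map_zero]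
  have hder : Polynomial.derivative Q ≠ 0 := by
    intro h0
    exact hpos (Polynomial.derivative_eq_zero.1 h0)
  have hne := hmin _ hder (Polynomial.natDegree_derivative_lt hpos)
  obtain ⟨-, p, hp, hp'⟩ := hQ Q
  refine ⟨Polynomial.aeval x (Polynomial.derivative Q), fun j => -p j, hne,
    ((hA0 _).1 (hQ _).1).1, ((hA0 _).1 (hQ _).1).2, fun j => (hA0 _).1 (A0.neg_mem (hp j)),
    fun χ g hg hgW => ?_⟩
  have h1 := hp' χ g hg hgW
  rw [hQx, br_zero] at h1
  simp only [smul_neg, Finset.sum_neg_distrib]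
  linear_combination -h1

end Pool.Agent.H89.TG

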