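import Pool.Agent.H15.TG.Targets

/-!
# Board `tga_modules` (MP_51eb24_ag), row PSG: the centralizer of a partial splitting
-/

set_option autoImplicit false

namespace Pool.Agent.H89.TG

open MvPolynomial Pool.Agent.H2.ST Pool.Agent.H15.TG

variable {k : Type} [Field k] {m : ℕ} {Γ : Type} [AddCommGroup Γ]

/-- the components of an element commuting with a homogeneous element commute with it -/
theorem br_cmp_zero {W : Γ → Submodule k (Pol k m)} (h : PGr W) {b : Γ} {t g : Pol k m}
    (ht : t ∈ W b) (hg : br t g = 0) (χ : Γ) : br t (cmp h.toGr g χ) = 0 := by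
  classical
  let c : Γ →₀ Pol k m := (cmp h.toGr g).sum fun a x => Finsupp.single (b + a) (br t x)
  have hc : ∀ a, c (b + a) = br t (cmp h.toGr g a) := by
    intro a
    simp only [c]
    rw [Finsupp.sum, Finsupp.finsetSum_apply]
    simp only [Finsupp.single_apply]
    rw [Finset.sum_eq_single a]
    · rw [if_pos rfl]
    · intro a' _ ha'
      rw [if_neg (fun h => ha' (add_left_cancel h))]
    · intro ha
      rw [if_pos rfl, Finsupp.notMem_support_iff.1 ha, br_zero]
  have h1 : c = 0 := by
    refine h.toGr.ind c (fun a' => ?_) ?_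
    · have h2 := hc (a' - b)
      rw [add_sub_cancel] at h2
      rw [h2]
      have h3 := h.pbr _ _ _ _ ht (cmp_mem h.toGr g (a' - b))
      rwa [add_sub_cancel] at h3
    · simp only [c]
      rw [Finsupp.sum_sum_index (fun _ => rfl) (fun _ _ _ => rfl)]
      have h3 : ((cmp h.toGr g).sum fun a x => (Finsupp.single (b + a) (br t x)).sum
          fun _ y => y) = (cmp h.toGr g).sum fun _ x => br t x := by
        refine Finsupp.sum_congr fun a _ => ?_
        rw [Finsupp.sum_single_index rfl]
      rw [h3]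
      unfold Finsupp.sum
      rw [← br_sum]
      have h4 := cmp_sum h.toGr g
      unfold Finsupp.sum at h4
      rw [h4, hg]
  rw [← hc, h1]
  rfl

theorem br_swap {f g : Pol k m} (h : br f g = 0) : br g f = 0 := by
  rw [br_anti, h, neg_zero]

/-- membership in the centralizer of the pairs -/
theorem mem_KS {S : Fin m → Prop} {u v : Fin m → Pol k m} {g : Pol k m} :
    g ∈ KS S u v ↔ ∀ i, S i → br (u i) g = 0 ∧ br (v i) g = 0 := by
  constructor
  · intro hg i hi
    exact ⟨br_swap (hg (u i) ⟨i, hi, Or.inl rfl⟩), br_swap (hg (v i) ⟨i, hi, Or.inr rfl⟩)⟩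
  · intro hg
    have h1 : ∀ p ∈ {p : Pol k m | ∃ i, S i ∧ (p = u i ∨ p = v i)}, br g p = 0 := by
      rintro p ⟨i, hi, rfl | rfl⟩
      · exact br_swap (hg i hi).1
      · exact br_swap (hg i hi).2
    exact mem_Cen.2 h1

theorem pf_PSG (hPSK : T_PSK) : T_PSG := by
  intro k _ _ m Γ _ W w S ϖ u v c h
  obtain ⟨-, hgen, -, hfc⟩ := hPSK k m Γ W w S ϖ u v c h
  have hKS : ∀ g : Pol k m, g ∈ KS S u v ↔ ∀ i, S i → br (u i) g = 0 ∧ br (v i) g = 0 :=
    fun g => mem_KS
  have hu : ∀ i, S i → u i ∉ KS S u v := by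
    intro i hi hcon
    have h1 := ((hKS _).1 hcon i hi).2
    rw [(h.par i hi).vu] at h1
    exact (h.par i hi).hc (C_eq_zero.1 h1)
  have hv : ∀ i, S i → v i ∉ KS S u v := by
    intro i hi hcon
    have h1 := ((hKS _).1 hcon i hi).1
    rw [br_anti, (h.par i hi).vu, neg_eq_zero] at h1
    exact (h.par i hi).hc (C_eq_zero.1 h1)
  refine ⟨?_, ?_, ?_, ?_⟩
  · intro g hg χ
    rw [hKS] at hg ⊢
    intro i hi
    exact ⟨br_cmp_zero h.toPGr (h.par i hi).hu (hg i hi).1 χ,
      br_cmp_zero h.toPGr (h.par i hi).hv (hg i hi).2 χ⟩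
  · intro a ha b hb
    exact Cen_br ha hb
  · intro χ g hg hgW hg0 i hi
    by_contra hne
    have P := h.par i hi
    have hdvd : ϖ i (w i) ∣ ϖ i χ := by
      by_contra hcon
      exact hg0 (P.zer χ hcon g hgW)
    rcases lt_or_gt_of_ne hne with hlt | hgt
    · have h1 : ϖ i (w i) ≤ -ϖ i χ := Int.le_of_dvd (by omega) ((dvd_neg).2 hdvd)
      have h2 := P.neg 1 χ (by simpa using h1) g hgW
      rw [pow_one] at h2
      obtain ⟨b, rfl⟩ := h2
      exact hv i hi (hfc _ _ hg0 hg).1
    · have h1 : ϖ i (w i) ≤ ϖ i χ := Int.le_of_dvd (by omega) hdvd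
      have h2 := P.pos 1 χ (by simpa using h1) g hgW
      rw [pow_one] at h2
      obtain ⟨b, rfl⟩ := h2
      exact hu i hi (hfc _ _ hg0 hg).1
  · intro p hp hdv
    refine const_of_dvd p fun s => ?_
    have key : ∀ F ∈ Algebra.adjoin k
        ((KS S u v : Set (Pol k m)) ∪ {p | ∃ i, S i ∧ (p = u i ∨ p = v i)}), p ∣ br p F := by
      intro F hF
      induction hF using Algebra.adjoin_induction with
      | mem z hz =>
        rcases hz with hz | ⟨i, hi, rfl | rfl⟩
        · exact hdv z hz
        · rw [br_anti, ((hKS p).1 hp i hi).1, neg_zero]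
          exact dvd_zero p
        · rw [br_anti, ((hKS p).1 hp i hi).2, neg_zero]
          exact dvd_zero p
      | algebraMap r =>
        rw [MvPolynomial.algebraMap_eq, br_C]
        exact dvd_zero p
      | add a b _ _ ha hb =>
        rw [br_add]
        exact dvd_add ha hb
      | mul a b _ _ ha hb =>
        rw [br_mul]
        exact dvd_add (Dvd.dvd.mul_left hb a) (Dvd.dvd.mul_left ha b)
    exact key _ (hgen (X s))

end Pool.Agent.H89.TG
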